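import Pool.Agent.Results.MP_fc6768_gt.FinUnb

set_option autoImplicit false

namespace Pool.Agent.Results.MP_27b523_gt.FinInt

open Filter Set Topology Pool.Agent.Results.MP_fc6768_gt.FinUnb

universe u

/-- `ℵ₁`-fin-unbounded sets, defined through the intervals of `d`. -/
def FI (X : Set (ℕ → Bool)) : Prop := (∀ x ∈ X, {i | x i = true}.Infinite) ∧ ¬ X.Countable ∧
  ∀ d : ℕ → ℕ, StrictMono d → ∃ S ⊆ X, S.Countable ∧ ∀ F ⊆ X \ S, F.Finite →
    ∃ᶠ n in atTop, ∀ x ∈ F, ∀ i, d n ≤ i → i < d (n + 1) → x i = false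

/-- The `γ`-property. -/
def Gam (Y : Type u) [TopologicalSpace Y] : Prop :=
  ∀ 𝓤 : Set (Set Y), Om 𝓤 → ∃ 𝓥 ⊆ 𝓤, Ga 𝓥

theorem gn {Y : Type u} [TopologicalSpace Y] [T1Space Y] (h : Gam Y) : S1 (Z := Y) Om Ga := by
  intro 𝓤 hU
  have i0 : (univ : Set Y).Infinite := fun e => let ⟨U, a, b⟩ := (hU 0).2.2 _ e
    (hU 0).2.1 (univ_subset_iff.1 b ▸ a)
  have b0 : ∀ n, ∀ F : Set Y, F.Finite → ∃ W, IsOpen W ∧ F ⊆ W ∧ ∀ k ≤ n, ∃ U ∈ 𝓤 k, W ⊆ U :=
    fun n F hF => by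
      choose U u1 u2 using fun k => (hU k).2.2 F hF
      exact ⟨⋂ k ∈ Iic n, U k, (finite_Iic n).isOpen_biInter fun k _ => (hU k).1 _ (u1 k),
        subset_iInter₂ fun k _ => u2 k, fun k hk => ⟨_, u1 k, biInter_subset_of_mem (s := Iic n) hk⟩⟩
  have key : ∃ V : ℕ → Set Y, (∀ n, ∃ U ∈ 𝓤 n, V n ⊆ U) ∧ ∀ y, ∀ᶠ n in atTop, y ∈ V n := by
    let y : ℕ → Y := fun n => (i0.natEmbedding _ n).1
    have y1 : Function.Injective y := Subtype.val_injective.comp (i0.natEmbedding _).injective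
    obtain ⟨𝓥, a1, -, a2, a3⟩ := h {W | IsOpen W ∧ ∃ n, y n ∉ W ∧ ∀ k ≤ n, ∃ U ∈ 𝓤 k, W ⊆ U}
      ⟨fun _ h => h.1, fun ⟨_, _, e, _⟩ => e trivial, fun F hF => by
        obtain ⟨n, -, hn⟩ := infinite_univ.exists_notMem_finite (hF.preimage y1.injOn)
        obtain ⟨W, w1, w2, w3⟩ := b0 n F hF
        exact ⟨W \ {y n}, ⟨w1.sdiff isClosed_singleton, n, fun e => e.2 rfl, fun k hk =>
          let ⟨U, c1, c2⟩ := w3 k hk; ⟨U, c1, diff_subset.trans c2⟩⟩,
            fun z hz => ⟨w2 hz, fun e => hn (by rw [mem_preimage, ← mem_singleton_iff.1 e]; exact hz)⟩⟩⟩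
    let e : ℕ → Set Y := fun j => (a2.natEmbedding _ j).1
    have e1 : Function.Injective e := Subtype.val_injective.comp (a2.natEmbedding _).injective
    have e2 : ∀ z, ∀ᶠ j in atTop, z ∈ e j := fun z => by
      rw [← Nat.cofinite_eq_atTop]
      refine ((a3 z).preimage e1.injOn).subset fun j hj => ?_
      exact ⟨(a2.natEmbedding _ j).2, hj⟩
    choose ν n1 n2 using fun j => (a1 (a2.natEmbedding _ j).2).2
    choose j j1 j2 using fun n => (((eventually_all_finite (finite_lt_nat n)).2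
      fun k _ => e2 (y k)).and (eventually_ge_atTop n)).exists
    exact ⟨fun n => e (j n), fun n => n2 _ n (not_lt.1 fun c => n1 _ (j1 n _ c)),
      fun z => (tendsto_atTop_mono j2 tendsto_id).eventually (e2 z)⟩
  obtain ⟨V, v1, v2⟩ := key
  choose U u1 u2 using v1
  have u3 : ∀ y, {n | y ∉ U n}.Finite := fun y => by
    have e := (v2 y).mono fun n hn => u2 n hn
    rwa [← Nat.cofinite_eq_atTop] at e
  refine ⟨U, u1, ?_, fun e => ?_, fun y => ((u3 y).image U).subset ?_⟩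
  · rintro _ ⟨n, rfl⟩
    exact (hU n).1 _ (u1 n)
  · choose y hy using fun n => (ne_univ_iff_exists_notMem _).1 fun f : U n = univ =>
      (hU n).2.1 (f ▸ u1 n)
    refine infinite_univ ((e.biUnion (t := fun W => {n | U n = W}) ?_).subset fun n _ =>
      mem_biUnion (x := U n) ⟨n, rfl⟩ rfl)
    rintro _ ⟨m, rfl⟩
    exact (u3 (y m)).subset fun n (hn : U n = U m) => show y m ∉ U n from hn ▸ hy m
  · rintro _ ⟨⟨n, rfl⟩, hn⟩
    exact ⟨n, hn, rfl⟩

theorem result (X : Set (ℕ → Bool)) (hX : FI X) (Y : Set ℝ) (h : Gam Y) :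
    S1 (Z := (X ∪ Fi : Set _) × Y) Ga Om := by
  refine Pool.Agent.Results.MP_fc6768_gt.FinUnb.result X ⟨hX.1, hX.2.1, fun d _ => ?_⟩ Y (gn h)
  let e : ℕ → ℕ := fun n => n.rec 0 fun _ a => d a + a + 1
  have e1 : StrictMono e := strictMono_nat_of_lt_succ fun n => Nat.lt_succ_of_le (Nat.le_add_left _ _)
  obtain ⟨S, s1, s2, s3⟩ := hX.2.2 e e1
  refine ⟨S, s1, s2, fun F f1 f2 _ => e1.tendsto_atTop.frequently ((s3 F f1 f2).mono
    fun n hn x hx => not_lt.1 fun c => ?_)⟩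
  have c1 := hX.1 x (f1 hx).1
  have c2 := hn x hx _ (Nat.nth_strictMono c1).le_apply
    (c.trans (Nat.lt_succ_of_le (Nat.le_add_right _ _)))
  have c3 : x _ = true := Nat.nth_mem_of_infinite c1 (e n)
  simp [c2] at c3

end Pool.Agent.Results.MP_27b523_gt.FinInt
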